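import Mathlib

/-!
The first-order language of associative algebras over a field (no unit), types, isotypy,
logical separability and logical homogeneity.
-/

set_option autoImplicit false

namespace Pool.Agent.Lib.MP_7ba13c_lc

open FirstOrder

universe u v w

/-- Function symbols: `0`, `-`, one unary symbol for each scalar, `+` and `·`. -/
inductive Fn (P : Type u) : ℕ → Type u
  | zero : Fn P 0
  | neg : Fn P 1
  | smul (c : P) : Fn P 1
  | add : Fn P 2
  | mul : Fn P 2

/-- The language of `P`-algebras: the function symbols above, no relation symbol. -/
def algLang (P : Type u) : FirstOrder.Language.{u, 0} where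
  Functions := Fn P
  Relations := fun _ => Empty

/-- A (not necessarily unital) `P`-algebra as a structure in the language of `P`-algebras. -/
instance algStructure (P : Type u) [Field P] (H : Type v) [NonUnitalRing H] [Module P H] :
    (algLang P).Structure H where
  funMap := fun {_} f => match f with
    | .zero => fun _ => 0
    | .neg => fun x => -x 0
    | .smul c => fun x => c • x 0
    | .add => fun x => x 0 + x 1
    | .mul => fun x => x 0 * x 1
  RelMap := fun {_} r => Empty.elim r

/-- The type of a tuple: the set of formulas in `n` free variables that it satisfies. -/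
def tp (P : Type u) [Field P] {H : Type v} [NonUnitalRing H] [Module P H] {n : ℕ}
    (a : Fin n → H) : Set ((algLang P).Formula (Fin n)) := {φ | φ.Realize a}

/-- The two algebras realise the same types of `n`-tuples, for every `n ≥ 1`. -/
def Isotypic (P : Type u) [Field P] (H₁ : Type v) [NonUnitalRing H₁] [Module P H₁]
    (H₂ : Type w) [NonUnitalRing H₂] [Module P H₂] : Prop :=
  ∀ n : ℕ, 1 ≤ n →
    Set.range (fun a : Fin n → H₁ => tp P a) = Set.range (fun a : Fin n → H₂ => tp P a)

/-- Two tuples have the same type if and only if an automorphism maps one to the other. -/
def LogicallyHomogeneous (P : Type u) [Field P] (H : Type v) [NonUnitalRing H] [Module P H] :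
    Prop :=
  ∀ (n : ℕ) (a b : Fin n → H),
    tp P a = tp P b ↔ ∃ σ : FirstOrder.Language.Equiv (algLang P) H H, ∀ i, b i = σ (a i)

/-- The free associative `P`-algebra without unit on `X`: the `P`-vector space with basis the
nonempty words in `X`, multiplied by concatenation. -/
abbrev FreeAss (P : Type u) [Field P] (X : Type v) : Type (max u v) :=
  MonoidAlgebra P (FreeSemigroup X)

end Pool.Agent.Lib.MP_7ba13c_lc
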