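import Pool.Agent.Lib.MP_7ba13c_lc.Defs

/-!
A small calculus of definable predicates and term functions.
-/

set_option autoImplicit false

namespace Pool.Agent.Lib.MP_7ba13c_lc

open FirstOrder FirstOrder.Language

universe u v w

variable (P : Type u) [Field P] {H : Type v} [NonUnitalRing H] [Module P H]

/-- Term constructors. -/
def tZero {α : Type w} : (algLang P).Term α := Term.func (l := 0) Fn.zero ![]
def tNeg {α : Type w} (s : (algLang P).Term α) : (algLang P).Term α :=
  Term.func (l := 1) Fn.neg ![s]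
def tSmul {α : Type w} (c : P) (s : (algLang P).Term α) : (algLang P).Term α :=
  Term.func (l := 1) (Fn.smul c) ![s]
def tAdd {α : Type w} (s t : (algLang P).Term α) : (algLang P).Term α :=
  Term.func (l := 2) Fn.add ![s, t]
def tMul {α : Type w} (s t : (algLang P).Term α) : (algLang P).Term α :=
  Term.func (l := 2) Fn.mul ![s, t]

@[simp] theorem realize_tZero {α : Type w} (v : α → H) : (tZero P).realize v = 0 := rfl
@[simp] theorem realize_tNeg {α : Type w} (v : α → H) (s : (algLang P).Term α) :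
    (tNeg P s).realize v = -s.realize v := rfl
@[simp] theorem realize_tSmul {α : Type w} (v : α → H) (c : P) (s : (algLang P).Term α) :
    (tSmul P c s).realize v = c • s.realize v := rfl
@[simp] theorem realize_tAdd {α : Type w} (v : α → H) (s t : (algLang P).Term α) :
    (tAdd P s t).realize v = s.realize v + t.realize v := rfl
@[simp] theorem realize_tMul {α : Type w} (v : α → H) (s t : (algLang P).Term α) :
    (tMul P s t).realize v = s.realize v * t.realize v := rfl

/-- `f` is given by a term. -/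
def TF {α : Type w} (f : (α → H) → H) : Prop := ∃ t : (algLang P).Term α, ∀ v, f v = t.realize v

/-- `p` is given by a formula. -/
def DF {α : Type w} (p : (α → H) → Prop) : Prop :=
  ∃ φ : (algLang P).Formula α, ∀ v, p v ↔ φ.Realize v

variable {P}
variable {α : Type w}

theorem TF.var (a : α) : TF P (fun v : α → H => v a) := ⟨Term.var a, fun _ => rfl⟩

theorem TF.zero : TF P (fun _ : α → H => (0 : H)) := ⟨tZero P, fun _ => rfl⟩

theorem TF.add {f g : (α → H) → H} (hf : TF P f) (hg : TF P g) : TF P (fun v => f v + g v) := by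
  obtain ⟨s, hs⟩ := hf; obtain ⟨t, ht⟩ := hg
  exact ⟨tAdd P s t, fun v => by simp [hs, ht]⟩

theorem TF.mul {f g : (α → H) → H} (hf : TF P f) (hg : TF P g) : TF P (fun v => f v * g v) := by
  obtain ⟨s, hs⟩ := hf; obtain ⟨t, ht⟩ := hg
  exact ⟨tMul P s t, fun v => by simp [hs, ht]⟩

theorem TF.sum {ι : Type*} (s : Finset ι) {f : ι → (α → H) → H} (hf : ∀ i, TF P (f i)) :
    TF P (fun v => ∑ i ∈ s, f i v) := by
  classical
  induction s using Finset.induction_on with
  | empty => simpa using TF.zero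
  | insert a s ha ih =>
    simp only [Finset.sum_insert ha]
    exact (hf a).add ih

theorem TF.subst {β : Type*} (t : (algLang P).Term β) {f : β → (α → H) → H}
    (hf : ∀ b, TF P (f b)) : TF P (fun v => t.realize fun b => f b v) := by
  choose s hs using hf
  exact ⟨t.subst s, fun v => by simp [hs]⟩

theorem DF.eq {f g : (α → H) → H} (hf : TF P f) (hg : TF P g) : DF P (fun v => f v = g v) := by
  obtain ⟨s, hs⟩ := hf; obtain ⟨t, ht⟩ := hg
  exact ⟨s.equal t, fun v => by simp [hs, ht]⟩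

theorem DF.not {p : (α → H) → Prop} (hp : DF P p) : DF P (fun v => ¬ p v) := by
  obtain ⟨φ, h⟩ := hp
  exact ⟨φ.not, fun v => by simp [h]⟩

theorem DF.ne {f g : (α → H) → H} (hf : TF P f) (hg : TF P g) : DF P (fun v => f v ≠ g v) :=
  (DF.eq hf hg).not

theorem DF.and {p q : (α → H) → Prop} (hp : DF P p) (hq : DF P q) : DF P (fun v => p v ∧ q v) := by
  obtain ⟨φ, h⟩ := hp; obtain ⟨ψ, h'⟩ := hq
  exact ⟨φ ⊓ ψ, fun v => by simp [h, h']⟩

theorem DF.or {p q : (α → H) → Prop} (hp : DF P p) (hq : DF P q) : DF P (fun v => p v ∨ q v) := by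
  obtain ⟨φ, h⟩ := hp; obtain ⟨ψ, h'⟩ := hq
  exact ⟨φ ⊔ ψ, fun v => by simp [h, h']⟩

theorem DF.imp {p q : (α → H) → Prop} (hp : DF P p) (hq : DF P q) : DF P (fun v => p v → q v) := by
  obtain ⟨φ, h⟩ := hp; obtain ⟨ψ, h'⟩ := hq
  exact ⟨φ.imp ψ, fun v => by simp [h, h']⟩

theorem DF.iAll {ι : Type*} [Finite ι] {p : ι → (α → H) → Prop} (hp : ∀ i, DF P (p i)) :
    DF P (fun v => ∀ i, p i v) := by
  choose φ h using hp
  exact ⟨Formula.iInf φ, fun v => by simp [h, Formula.realize_iInf]⟩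

theorem DF.exs {β : Type*} [Finite β] {p : (α → H) → (β → H) → Prop}
    (hp : DF P (fun v : α ⊕ β → H => p (fun a => v (Sum.inl a)) (fun b => v (Sum.inr b)))) :
    DF P (fun v => ∃ z, p v z) := by
  obtain ⟨φ, h⟩ := hp
  refine ⟨φ.iExs β, fun v => ?_⟩
  rw [Formula.realize_iExs]
  exact exists_congr fun z => h (Sum.elim v z)

theorem DF.ex {p : (α → H) → H → Prop}
    (hp : DF P (fun v : α ⊕ Unit → H => p (fun a => v (Sum.inl a)) (v (Sum.inr ())))) :
    DF P (fun v => ∃ z, p v z) := by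
  obtain ⟨φ, h⟩ := DF.exs (β := Unit) (p := fun v z => p v (z ())) hp
  refine ⟨φ, fun v => ?_⟩
  rw [← h]
  exact ⟨fun ⟨z, hz⟩ => ⟨fun _ => z, hz⟩, fun ⟨z, hz⟩ => ⟨z (), hz⟩⟩

theorem DF.all {p : (α → H) → H → Prop}
    (hp : DF P (fun v : α ⊕ Unit → H => p (fun a => v (Sum.inl a)) (v (Sum.inr ())))) :
    DF P (fun v => ∀ z, p v z) := by
  obtain ⟨φ, h⟩ := (DF.ex (p := fun v z => ¬ p v z) hp.not).not
  refine ⟨φ, fun v => ?_⟩
  rw [← h]
  simp

theorem DF.subst {β : Type*} {p : (β → H) → Prop} (hp : DF P p) {f : β → (α → H) → H}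
    (hf : ∀ b, TF P (f b)) : DF P (fun v => p fun b => f b v) := by
  obtain ⟨φ, h⟩ := hp
  choose s hs using hf
  refine ⟨BoundedFormula.subst φ s, fun v => ?_⟩
  beta_reduce
  rw [h]
  unfold Formula.Realize
  rw [BoundedFormula.realize_subst]
  simp [hs]

end Pool.Agent.Lib.MP_7ba13c_lc
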