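import Pool.Agent.Lib.MP_7ba13c_lc.Defs
import Pool.Agent.Lib.MP_7ba13c_lc.Logic

-- part Pool.Agent.Lib.MP_7ba13c_lc.Alg
section

/-!
Algebraic facts on the free associative algebra without unit.
-/

set_option autoImplicit false

namespace Pool.Agent.Lib.MP_7ba13c_lc

open MonoidAlgebra

universe u v w

variable (P : Type u) [Field P] {X : Type v}

/-- The free associative algebra with unit. -/
abbrev UA (X : Type v) : Type (max u v) := MonoidAlgebra P (FreeMonoid X)

/-- The free generators. -/
noncomputable def gen (x : X) : FreeAss P X := single (FreeSemigroup.of x) 1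

/-- The free generators of the unital algebra. -/
noncomputable def ug (x : X) : UA P X := single (FreeMonoid.of x) 1

/-- The embedding in the unital free algebra. -/
noncomputable def emb : FreeAss P X →ₙₐ[P] UA P X :=
  mapDomainNonUnitalAlgHom P P FreeSemigroup.toFreeMonoid

variable {P}

theorem emb_single (w : FreeSemigroup X) (c : P) :
    emb P (single w c) = single (FreeSemigroup.toFreeMonoid w) c := by
  simp [emb]

@[simp] theorem emb_gen (x : X) : emb P (gen P x) = ug P x := by
  simp [gen, ug, emb_single]

theorem emb_injective : Function.Injective (emb P : FreeAss P X → UA P X) :=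
  mapDomain_injective FreeSemigroup.toFreeMonoid_injective

theorem emb_eq_zero {f : FreeAss P X} : emb P f = 0 ↔ f = 0 :=
  map_eq_zero_iff _ emb_injective

theorem coeff_emb_one (f : FreeAss P X) : (emb P f).coeff 1 = 0 := by
  induction f using MonoidAlgebra.induction_linear with
  | zero => simp
  | add f g hf hg => simp [hf, hg]
  | single w c =>
    rw [emb_single, coeff_single, Finsupp.single_apply_eq_zero]
    intro h
    exact absurd h.symm (FreeSemigroup.toFreeMonoid_ne_one w)

theorem single_eq_smul {M : Type*} (w : M) (c : P) :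
    (single w c : MonoidAlgebra P M) = c • single w 1 := by simp

theorem exists_decomp (g : UA P X) : ∃ (c : P) (f : FreeAss P X), g = c • 1 + emb P f := by
  induction g using MonoidAlgebra.induction_linear with
  | zero => exact ⟨0, 0, by simp⟩
  | add f g hf hg =>
    obtain ⟨c, f', rfl⟩ := hf
    obtain ⟨d, g', rfl⟩ := hg
    exact ⟨c + d, f' + g', by rw [map_add, add_smul]; abel⟩
  | single w c =>
    rcases FreeSemigroup.eq_one_or_toFreeMonoid w with rfl | ⟨y, rfl⟩
    · exact ⟨c, 0, by simp [one_def]⟩
    · exact ⟨0, single y c, by simp [emb_single]⟩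

theorem exists_emb_mul (f : FreeAss P X) (g : UA P X) : ∃ h, emb P h = emb P f * g := by
  obtain ⟨c, g', rfl⟩ := exists_decomp g
  exact ⟨c • f + f * g', by simp [mul_add]⟩

theorem free_induction {motive : FreeAss P X → Prop} (f : FreeAss P X) (zero : motive 0)
    (add : ∀ f g, motive f → motive g → motive (f + g))
    (smul : ∀ (c : P) f, motive f → motive (c • f))
    (hgen : ∀ x, motive (gen P x)) (hmul : ∀ x f, motive f → motive (gen P x * f)) :
    motive f := by
  induction f using MonoidAlgebra.induction_linear with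
  | zero => exact zero
  | add f g hf hg => exact add f g hf hg
  | single w c =>
    rw [single_eq_smul]
    apply smul
    induction w using FreeSemigroup.recOnMul with
    | ih1 x => exact hgen x
    | ih2 x y _ hy =>
      have := hmul x _ hy
      rwa [gen, single_mul_single, one_mul] at this

section Lift

variable {H : Type w} [NonUnitalRing H] [Module P H] [IsScalarTower P H H] [SMulCommClass P H H]

variable (P) in
/-- The homomorphism with prescribed values on the generators. -/
noncomputable def liftW (y : X → H) : FreeAss P X →ₙₐ[P] H :=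
  liftMagma P (FreeSemigroup.lift y)

@[simp] theorem liftW_gen (y : X → H) (x : X) : liftW P y (gen P x) = y x := by
  simp [liftW, gen]

end Lift

theorem liftW_gen_self (f : FreeAss P X) : liftW P (gen P) f = f := by
  induction f using free_induction with
  | zero => simp
  | add f g hf hg => simp [hf, hg]
  | smul c f hf => simp [hf]
  | hgen x => simp
  | hmul x f hf => simp [hf]

/-! ### The filtration by length -/

variable (P X) in
/-- Combinations of words of length at least `k`. -/
noncomputable def Fil (k : ℕ) : Submodule P (FreeAss P X) := supported P P {w | k ≤ w.length}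

theorem mem_Fil {k : ℕ} {f : FreeAss P X} :
    f ∈ Fil P X k ↔ ∀ w ∈ f.coeff.support, k ≤ w.length := Iff.rfl

theorem mem_Fil_one (f : FreeAss P X) : f ∈ Fil P X 1 :=
  mem_Fil.2 fun w _ => by simp [FreeSemigroup.length]

theorem Fil_mono {j k : ℕ} (h : j ≤ k) {f : FreeAss P X} (hf : f ∈ Fil P X k) : f ∈ Fil P X j :=
  mem_Fil.2 fun w hw => h.trans (mem_Fil.1 hf w hw)

theorem mul_mem_Fil {j k : ℕ} {f g : FreeAss P X} (hf : f ∈ Fil P X j) (hg : g ∈ Fil P X k) :
    f * g ∈ Fil P X (j + k) := by
  classical
  refine mem_Fil.2 fun w hw => ?_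
  obtain ⟨a, ha, b, hb, rfl⟩ := Finset.mem_mul.1 (support_coeff_mul_subset f g hw)
  rw [FreeSemigroup.length_mul]
  exact add_le_add (mem_Fil.1 hf a ha) (mem_Fil.1 hg b hb)

theorem exists_notMem_Fil {f : FreeAss P X} (hf : f ≠ 0) : ∃ k, f ∉ Fil P X k := by
  obtain ⟨w, hw⟩ := Finsupp.support_nonempty_iff.2 (coeff_eq_zero.not.2 hf)
  exact ⟨w.length + 1, fun h => by simpa using mem_Fil.1 h w hw⟩

theorem map_mem_Fil (σ : FreeAss P X →ₙₐ[P] FreeAss P X) {k : ℕ} {f : FreeAss P X}
    (hf : f ∈ Fil P X k) : σ f ∈ Fil P X k := by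
  have hw : ∀ w : FreeSemigroup X, σ (single w 1) ∈ Fil P X w.length := by
    intro w
    induction w using FreeSemigroup.recOnMul with
    | ih1 x => exact mem_Fil_one _
    | ih2 x y hx hy =>
      have := mul_mem_Fil hx hy
      rwa [← map_mul, single_mul_single, one_mul, ← FreeSemigroup.length_mul] at this
  unfold Fil at hf
  rw [supported_eq_span_single] at hf
  induction hf using Submodule.span_induction with
  | mem x hx =>
    obtain ⟨w, hw', rfl⟩ := hx
    exact Fil_mono hw' (hw w)
  | zero => simp
  | add x y _ _ hx hy => rw [map_add]; exact add_mem hx hy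
  | smul c x _ hx => rw [map_smul]; exact Submodule.smul_mem _ c hx

theorem finite_quot [Finite X] (k : ℕ) : Module.Finite P (FreeAss P X ⧸ Fil P X k) := by
  have hfin : {w : FreeSemigroup X | w.length < k}.Finite := by
    refine Set.Finite.of_finite_image (f := fun w : FreeSemigroup X => w.head :: w.tail)
      ((List.finite_length_lt X k).subset ?_) ?_
    · rintro _ ⟨w, hw, rfl⟩
      simpa [FreeSemigroup.length] using hw
    · rintro ⟨a, l⟩ _ ⟨b, m⟩ _ h
      simpa using h
  refine ⟨Submodule.fg_def.2 ⟨_, hfin.image fun w => (Fil P X k).mkQ (single w 1), ?_⟩⟩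
  rw [eq_top_iff]
  rintro q -
  obtain ⟨f, rfl⟩ := (Fil P X k).mkQ_surjective q
  induction f using MonoidAlgebra.induction_linear with
  | zero => simp
  | add f g hf hg => rw [map_add]; exact add_mem hf hg
  | single w c =>
    rw [single_eq_smul, map_smul]
    apply Submodule.smul_mem
    by_cases hw : w.length < k
    · exact Submodule.subset_span ⟨w, hw, rfl⟩
    · have : (Fil P X k).mkQ (single w 1) = 0 := by
        rw [Submodule.mkQ_apply, Submodule.Quotient.mk_eq_zero, mem_Fil]
        intro w' hw'
        have := Finsupp.support_single_subset hw'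
        rw [Finset.mem_singleton] at this
        rw [this]; omega
      rw [this]; exact zero_mem _

/-- The free algebra of finite rank is Hopfian. -/
theorem injective_of_surjective [Finite X] (σ : FreeAss P X →ₙₐ[P] FreeAss P X)
    (hσ : Function.Surjective σ) : Function.Injective σ := by
  rw [injective_iff_map_eq_zero]
  intro f hf
  by_contra hne
  obtain ⟨k, hk⟩ := exists_notMem_Fil hne
  have := finite_quot (P := P) (X := X) k
  let s : FreeAss P X →ₗ[P] FreeAss P X := σ
  let τ := (Fil P X k).mapQ (Fil P X k) s fun g hg => map_mem_Fil σ hg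
  have hs : Function.Surjective τ := by
    intro q
    obtain ⟨g, rfl⟩ := (Fil P X k).mkQ_surjective q
    obtain ⟨g', rfl⟩ := hσ g
    exact ⟨(Fil P X k).mkQ g', rfl⟩
  have hi : Function.Injective τ := LinearMap.injective_iff_surjective.2 hs
  have : τ ((Fil P X k).mkQ f) = 0 := by
    show (Fil P X k).mkQ (σ f) = 0
    rw [hf, map_zero]
  rw [← map_zero τ] at this
  exact hk ((Submodule.Quotient.mk_eq_zero _).1 (hi this))

/-! ### Factorisations of monomials -/

theorem eq_single_of_mul_eq_single {f g : UA P X} {w : FreeMonoid X} {c : P} (hc : c ≠ 0)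
    (h : f * g = single w c) :
    ∃ (w₁ w₂ : FreeMonoid X) (c₁ c₂ : P), f = single w₁ c₁ ∧ g = single w₂ c₂ ∧ w₁ * w₂ = w ∧
      c₁ ≠ 0 ∧ c₂ ≠ 0 := by
  classical
  have hne : f * g ≠ 0 := by rw [h]; exact single_ne_zero.2 hc
  have hf : f.coeff.support.Nonempty :=
    Finsupp.support_nonempty_iff.2 (coeff_eq_zero.not.2 (left_ne_zero_of_mul hne))
  have hg : g.coeff.support.Nonempty :=
    Finsupp.support_nonempty_iff.2 (coeff_eq_zero.not.2 (right_ne_zero_of_mul hne))
  have key : ∀ a ∈ f.coeff.support, ∀ b ∈ g.coeff.support,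
      UniqueMul f.coeff.support g.coeff.support a b → a * b = w := by
    intro a ha b hb hu
    have := coeff_mul_mul_of_uniqueMul hu
    rw [h, coeff_single] at this
    by_contra hab
    rw [Finsupp.single_eq_of_ne hab] at this
    exact mul_ne_zero (Finsupp.mem_support_iff.1 ha) (Finsupp.mem_support_iff.1 hb) this.symm
  have hcard : ¬ 1 < f.coeff.support.card * g.coeff.support.card := by
    intro hlt
    obtain ⟨p, hp, q, hq, hpq, hup, huq⟩ := TwoUniqueProds.uniqueMul_of_one_lt_card hlt
    rw [Finset.mem_product] at hp hq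
    have := hup hq.1 hq.2 ((key _ hq.1 _ hq.2 huq).trans (key _ hp.1 _ hp.2 hup).symm)
    exact hpq (Prod.ext this.1.symm this.2.symm)
  have h1 := Finset.card_pos.2 hf
  have h2 := Finset.card_pos.2 hg
  have c1 : f.coeff.support.card = 1 := by nlinarith
  have c2 : g.coeff.support.card = 1 := by nlinarith
  obtain ⟨w₁, c₁, hc₁, e₁⟩ := Finsupp.card_support_eq_one'.1 c1
  obtain ⟨w₂, c₂, hc₂, e₂⟩ := Finsupp.card_support_eq_one'.1 c2
  have e₁' : f = single w₁ c₁ := coeff_injective e₁
  have e₂' : g = single w₂ c₂ := coeff_injective e₂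
  refine ⟨w₁, w₂, c₁, c₂, e₁', e₂', ?_, hc₁, hc₂⟩
  rw [e₁', e₂', single_mul_single, single_inj] at h
  rcases h with h | h
  · exact h.1
  · exact absurd h.2 hc

/-! ### Linear maps defined on words -/

/-- The linear map with prescribed values on words. -/
noncomputable def lin (g : FreeMonoid X → UA P X) : UA P X →ₗ[P] UA P X :=
  (MonoidAlgebra.basis (FreeMonoid X) P).constr P g

theorem lin_single (g : FreeMonoid X → UA P X) (w : FreeMonoid X) (c : P) :
    lin g (single w c) = c • g w := by
  rw [single_eq_smul, map_smul, lin, ← MonoidAlgebra.basis_apply, Module.Basis.constr_basis]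

/-- Right division by a letter. -/
theorem exists_rho (a : X) : ∃ ρ : UA P X →ₗ[P] UA P X,
    (∀ f, ρ (f * ug P a) = f) ∧ ∀ (f : UA P X) (g : FreeAss P X), ρ (f * emb P g) = f * ρ (emb P g) := by
  classical
  let r : FreeMonoid X → UA P X := fun w =>
    if w.toList.getLast? = some a then single (FreeMonoid.ofList w.toList.dropLast) 1 else 0
  refine ⟨lin r, fun f => ?_, fun f g => ?_⟩
  · induction f using MonoidAlgebra.induction_linear with
    | zero => simp
    | add f g hf hg => rw [add_mul, map_add, hf, hg]
    | single w c =>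
      rw [ug, single_mul_single, lin_single]
      simp [r]
  · induction f using MonoidAlgebra.induction_linear with
    | zero => simp
    | add f f' hf hf' => rw [add_mul, map_add, hf, hf', add_mul]
    | single w c =>
      induction g using MonoidAlgebra.induction_linear with
      | zero => simp
      | add g g' hg hg' => rw [map_add, mul_add, map_add, hg, hg', map_add, mul_add]
      | single w' c' =>
        obtain ⟨x, l⟩ := w'
        rw [emb_single, single_mul_single, lin_single, lin_single,
          FreeSemigroup.toFreeMonoid_mk_eq_cons]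
        have e : (FreeMonoid.toList (w * FreeMonoid.ofList (x :: l))).getLast? =
            (FreeMonoid.toList (FreeMonoid.ofList (x :: l))).getLast? :=
          List.getLast?_append_of_ne_nil _ (List.cons_ne_nil x l)
        have e' : FreeMonoid.ofList (FreeMonoid.toList (w * FreeMonoid.ofList (x :: l))).dropLast =
            w * FreeMonoid.ofList (FreeMonoid.toList (FreeMonoid.ofList (x :: l))).dropLast :=
          congrArg FreeMonoid.ofList (List.dropLast_append_of_ne_nil (List.cons_ne_nil x l))
        by_cases h : (FreeMonoid.toList (FreeMonoid.ofList (x :: l))).getLast? = some a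
        · simp only [r, if_pos h, if_pos (e.trans h), e']
          simp [single_mul_single]
        · simp only [r, if_neg h, if_neg (fun h' => h (e.symm.trans h'))]
          simp

/-- If `s` and `y` generate the same right ideal then they are proportional. -/
theorem exists_smul_of_ideal_eq (a : X) {s y : FreeAss P X} (hs : s ≠ 0)
    (h1 : ∀ u, ∃ v, s * u = y * v) (h2 : ∀ u, ∃ v, y * u = s * v) : ∃ c : P, s = c • y := by
  obtain ⟨ρ, hρ1, hρ2⟩ := exists_rho (P := P) a
  obtain ⟨v, hv⟩ := h1 (gen P a)
  obtain ⟨v', hv'⟩ := h2 (gen P a)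
  have e1 : emb P s = emb P y * ρ (emb P v) := by
    rw [← hρ2, ← map_mul, ← hv, map_mul, emb_gen, hρ1]
  have e2 : emb P y = emb P s * ρ (emb P v') := by
    rw [← hρ2, ← map_mul, ← hv', map_mul, emb_gen, hρ1]
  have e3 : ρ (emb P v') * ρ (emb P v) = single 1 1 := by
    apply mul_left_cancel₀ (emb_eq_zero.not.2 hs)
    rw [← mul_assoc, ← e2, ← e1, ← one_def, mul_one]
  obtain ⟨w₁, w₂, c₁, c₂, -, f2, hw, -, -⟩ := eq_single_of_mul_eq_single one_ne_zero e3
  have hw2 : w₂ = 1 := by
    have := congrArg FreeMonoid.length hw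
    rw [FreeMonoid.length_mul, FreeMonoid.length_one] at this
    exact FreeMonoid.length_eq_zero.1 (by omega)
  refine ⟨c₂, emb_injective ?_⟩
  rw [map_smul, e1, f2, hw2, single_eq_smul, ← one_def, mul_smul_comm, mul_one]

end Pool.Agent.Lib.MP_7ba13c_lc
end

-- part Pool.Agent.Lib.MP_7ba13c_lc.Code
section

/-!
Coding finite sequences in a free associative algebra of rank at least two, and a first-order
description of the free generating tuples.
-/

set_option autoImplicit false

namespace Pool.Agent.Lib.MP_7ba13c_lc

open MonoidAlgebra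

universe u v w

section Predicates

variable {H : Type w} [NonUnitalRing H]

/-- `s` is zero or generates the same right ideal as `y`. -/
def Sc (s y : H) : Prop := s = 0 ∨ ((∀ u, ∃ v, s * u = y * v) ∧ ∀ u, ∃ v, y * u = s * v)

/-- `m` is a nonzero multiple of a power of `a`. -/
def Pow (a m : H) : Prop := m * a = a * m ∧ m ≠ 0 ∧ ∀ h u, m = u + h * u → h = 0

/-- `t` is the entry with index `m` of the sequence coded by `c`. -/
def Coef (a b c m t : H) : Prop :=
  ∃ p q u, c * m + u = a * p * b + b * t * b + b * q * a + a * u * a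

/-- `m` is an index and `t` the corresponding entry. -/
def Rank (a b c m t : H) : Prop := Pow a m ∧ Coef a b c m t

/-- Every element has a derivation from the tuple `y`. -/
def Phi {X : Type v} [Fintype X] (a b : X) (y : X → H) : Prop :=
  ∀ z, ∃ c m₀, Rank (y a) (y b) c m₀ z ∧ ∀ m t, Rank (y a) (y b) c m t →
    ∃ T : X → H, ∃ S : X → H, ∃ M : X → H, t = ∑ k, (y k * T k + S k) ∧
      ∀ k, Sc (S k) (y k) ∧ (T k = 0 ∨ (Rank (y a) (y b) c (M k) (T k) ∧ ∃ w, m = M k * w))

theorem Coef.add {a b c c' m t t' : H} (h : Coef a b c m t) (h' : Coef a b c' m t') :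
    Coef a b (c + c') m (t + t') := by
  obtain ⟨p, q, u, h⟩ := h
  obtain ⟨p', q', u', h'⟩ := h'
  refine ⟨p + p', q + q', u + u', ?_⟩
  have : (c + c') * m + (u + u') = (c * m + u) + (c' * m + u') := by noncomm_ring
  rw [this, h, h']
  noncomm_ring

/-- Iterated two-sided multiplication. -/
def conj (a : H) : ℕ → H → H
  | 0, v => v
  | k + 1, v => a * conj a k v * a

theorem exists_conj (a v : H) (k : ℕ) : ∃ u, conj a k v + u = v + a * u * a := by
  induction k with
  | zero => exact ⟨0, by simp [conj]⟩
  | succ k ih =>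
    obtain ⟨u, hu⟩ := ih
    refine ⟨v + a * u * a, ?_⟩
    have : conj a (k + 1) v + (v + a * u * a) = v + a * (conj a k v + u) * a := by
      rw [conj]; noncomm_ring
    rw [this, hu]

/-- Positive powers. -/
def pw (a : H) : ℕ → H
  | 0 => a
  | k + 1 => a * pw a k

end Predicates

variable {P : Type u} [Field P] {X : Type v}

theorem phi_sound [Fintype X] {a b : X} {y : X → FreeAss P X} (h : Phi a b y) :
    Function.Surjective (liftW P y) := by
  intro z
  obtain ⟨c, m₀, h0, hstep⟩ := h z
  have key : ∀ (j : ℕ) (m t : FreeAss P X), m ∉ Fil P X j → Rank (y a) (y b) c m t →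
      ∃ f, liftW P y f = t := by
    intro j
    induction j with
    | zero => exact fun m t hm _ => absurd (Fil_mono (Nat.zero_le 1) (mem_Fil_one m)) hm
    | succ j ih =>
      intro m t hm hr
      obtain ⟨T, S, M, ht, hk⟩ := hstep m t hr
      have hT : ∀ k, ∃ f, liftW P y f = T k := by
        intro k
        rcases (hk k).2 with h | ⟨h1, w, hw⟩
        · exact ⟨0, by simp [h]⟩
        · refine ih (M k) (T k) (fun hM => hm ?_) h1
          rw [hw]
          exact mul_mem_Fil hM (mem_Fil_one w)
      have hS : ∀ k, ∃ f, liftW P y f = S k := by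
        intro k
        by_cases h0 : S k = 0
        · exact ⟨0, by simp [h0]⟩
        · rcases (hk k).1 with h | h
          · exact absurd h h0
          · obtain ⟨d, hd⟩ := exists_smul_of_ideal_eq a h0 h.1 h.2
            exact ⟨d • gen P k, by simp [hd]⟩
      choose f hf using hT
      choose g hg using hS
      exact ⟨∑ k, (gen P k * f k + g k), by simp [map_sum, hf, hg, ht]⟩
  obtain ⟨j, hj⟩ := exists_notMem_Fil h0.1.2.1
  exact key j m₀ z hj h0

theorem emb_pw (a : FreeAss P X) (k : ℕ) : emb P (pw a k) = emb P a ^ (k + 1) := by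
  induction k with
  | zero => simp [pw]
  | succ k ih => rw [pw, map_mul, ih, ← pow_succ']

theorem emb_conj (a v : FreeAss P X) (k : ℕ) :
    emb P (conj a k v) = emb P a ^ k * emb P v * emb P a ^ k := by
  induction k with
  | zero => simp [conj]
  | succ k ih =>
    rw [conj, map_mul, map_mul, ih, pow_succ' _ k]
    nth_rewrite 2 [← pow_succ' _ k]
    rw [pow_succ _ k]
    noncomm_ring

theorem ug_pow (a : X) (k : ℕ) : ug P a ^ k = single (FreeMonoid.of a ^ k) 1 := by
  rw [ug, single_pow, one_pow]

theorem pow_smul_pw (a : X) {c : P} (hc : c ≠ 0) (i : ℕ) : Pow (gen P a) (c • pw (gen P a) i) := by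
  have e : emb P (c • pw (gen P a) i) = single (FreeMonoid.of a ^ (i + 1)) c := by
    rw [map_smul, emb_pw, emb_gen, ug_pow, ← single_eq_smul]
  refine ⟨emb_injective ?_, ?_, fun h u hu => ?_⟩
  · simp only [map_mul, map_smul, emb_pw, smul_mul_assoc, mul_smul_comm]
    rw [← pow_succ, ← pow_succ']
  · intro h
    rw [h, map_zero] at e
    exact single_ne_zero.2 hc e.symm
  · have e2 : (1 + emb P h) * emb P u = single (FreeMonoid.of a ^ (i + 1)) c := by
      rw [← e, hu, map_add, map_mul, add_mul, one_mul]
    obtain ⟨w₁, w₂, c₁, c₂, f1, -, -, -, -⟩ := eq_single_of_mul_eq_single hc e2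
    have f2 := congrArg (fun g : UA P X => g.coeff 1) f1
    simp only [coeff_add, Finsupp.add_apply, coeff_emb_one, add_zero, coeff_one_one,
      coeff_single] at f2
    have hw : w₁ = 1 := by
      by_contra hne
      rw [Finsupp.single_eq_of_ne (Ne.symm hne)] at f2
      exact one_ne_zero f2
    subst hw
    rw [Finsupp.single_eq_same] at f2
    rw [← f2, ← one_def] at f1
    exact emb_eq_zero.1 (by simpa using f1)

theorem all_eq_of_rotate (a : X) (S : Set (List X)) (h : ∀ w ∈ S, ∃ w' ∈ S, a :: w' = w ++ [a]) :
    ∀ (l₁ : List X) (x : X) (l₂ : List X), l₁ ++ x :: l₂ ∈ S → x = a := by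
  intro l₁
  induction l₁ with
  | nil =>
    intro x l₂ hx
    obtain ⟨w', -, e⟩ := h _ hx
    simp only [List.nil_append, List.cons_append, List.cons.injEq] at e
    exact e.1.symm
  | cons y l₁ ih =>
    intro x l₂ hx
    obtain ⟨w', hw', e⟩ := h _ hx
    simp only [List.cons_append, List.cons.injEq, List.append_assoc] at e
    rw [e.2] at hw'
    exact ih x _ hw'

theorem exists_aeval_of_commute (a : X) {g : UA P X} (h : g * ug P a = ug P a * g) :
    ∃ p : Polynomial P, Polynomial.aeval (ug P a) p = g := by
  classical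
  have h1 : ∀ w ∈ g.coeff.support, ∃ w' ∈ g.coeff.support,
      FreeMonoid.of a * w' = w * FreeMonoid.of a := by
    intro w hw
    have e : (g * ug P a).coeff (w * FreeMonoid.of a) = g.coeff w := by
      rw [ug, coeff_mul_single_mul, mul_one]
    have hm : w * FreeMonoid.of a ∈ (ug P a * g).coeff.support := by
      rw [← h, Finsupp.mem_support_iff, e]
      exact Finsupp.mem_support_iff.1 hw
    have := support_coeff_single_mul_subset g 1 (FreeMonoid.of a) hm
    simpa using this
  have h2 : ∀ w ∈ g.coeff.support, ∃ k : ℕ, w = FreeMonoid.of a ^ k := by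
    intro w hw
    have h3 := all_eq_of_rotate a {l | FreeMonoid.ofList l ∈ g.coeff.support} (by
      intro l hl
      obtain ⟨w', hw', e⟩ := h1 _ hl
      exact ⟨w'.toList, hw', e⟩)
    have h4 : ∀ x ∈ w.toList, x = a := by
      intro x hx
      obtain ⟨l₁, l₂, e⟩ := List.append_of_mem hx
      refine h3 l₁ x l₂ ?_
      rw [← e]
      exact hw
    have h5 : ∀ l : List X, (∀ x ∈ l, x = a) → FreeMonoid.ofList l = FreeMonoid.of a ^ l.length := by
      intro l
      induction l with
      | nil => intro _; rfl
      | cons x l ih =>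
        intro hl
        rw [FreeMonoid.ofList_cons, List.length_cons, pow_succ', hl x (by simp),
          ih fun y hy => hl y (by simp [hy])]
    exact ⟨_, h5 _ h4⟩
  have h6 : g ∈ supported P P {w | ∃ k : ℕ, w = FreeMonoid.of a ^ k} := h2
  rw [supported_eq_span_single] at h6
  clear h h1 h2
  induction h6 using Submodule.span_induction with
  | mem x hx =>
    obtain ⟨w, ⟨k, rfl⟩, rfl⟩ := hx
    exact ⟨Polynomial.X ^ k, by simp [ug_pow]⟩
  | zero => exact ⟨0, by simp⟩
  | add x y _ _ hx hy =>
    obtain ⟨p, rfl⟩ := hx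
    obtain ⟨q, rfl⟩ := hy
    exact ⟨p + q, by simp⟩
  | smul c x _ hx =>
    obtain ⟨p, rfl⟩ := hx
    exact ⟨c • p, by simp⟩

theorem Pow.eq_smul_pw {a : X} {m : FreeAss P X} (h : Pow (gen P a) m) :
    ∃ (c : P) (i : ℕ), c ≠ 0 ∧ m = c • pw (gen P a) i := by
  obtain ⟨h1, h2, h3⟩ := h
  obtain ⟨p, hp⟩ := exists_aeval_of_commute a (g := emb P m)
    (by rw [← emb_gen, ← map_mul, h1, map_mul])
  have hp0 : p ≠ 0 := by
    rintro rfl
    exact h2 (emb_eq_zero.1 (by simpa using hp.symm))
  obtain ⟨q, hq, hq'⟩ := Polynomial.exists_eq_pow_rootMultiplicity_mul_and_not_dvd p hp0 0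
  generalize p.rootMultiplicity 0 = r at hq
  simp only [map_zero, sub_zero] at hq hq'
  rw [Polynomial.X_dvd_iff] at hq'
  obtain ⟨h₀, hh₀⟩ := exists_emb_mul (gen P a) (Polynomial.aeval (ug P a) q.divX)
  have e : emb P m = (emb P h₀ + q.coeff 0 • 1) * ug P a ^ r := by
    have e0 : Polynomial.aeval (ug P a) q =
        ug P a * Polynomial.aeval (ug P a) q.divX + q.coeff 0 • 1 := by
      conv_lhs => rw [← Polynomial.X_mul_divX_add q]
      rw [map_add, map_mul, Polynomial.aeval_X, Polynomial.aeval_C, Algebra.algebraMap_eq_smul_one]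
    rw [← hp, hq, mul_comm, map_mul, hh₀, emb_gen, e0, map_pow, Polynomial.aeval_X]
  cases r with
  | zero =>
    have := congrArg (fun g : UA P X => g.coeff 1) e
    simp [coeff_emb_one] at this
    exact absurd this.symm hq'
  | succ i =>
    have hz := h3 ((q.coeff 0)⁻¹ • h₀) (q.coeff 0 • pw (gen P a) i) (emb_injective (by
      rw [e]
      simp only [map_add, map_mul, map_smul, emb_pw, emb_gen, smul_mul_assoc, mul_smul_comm,
        smul_smul, mul_inv_cancel₀ hq', one_smul, add_mul, one_mul]
      abel))
    have hz' : h₀ = 0 := by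
      rcases smul_eq_zero.1 hz with h | h
      · exact absurd h (inv_ne_zero hq')
      · exact h
    refine ⟨q.coeff 0, i, hq', emb_injective ?_⟩
    rw [e, hz']
    simp [emb_pw]

/-- Strip matching pairs of letters `a`, then one pair of letters `b`. -/
noncomputable def strip [DecidableEq X] (P : Type u) [Field P] (a b : X) : List X → UA P X
  | [] => 0
  | x :: r =>
    if x = a ∧ r.getLast? = some a then strip P a b r.dropLast
    else if x = b ∧ r.getLast? = some b then single (FreeMonoid.ofList r.dropLast) 1 else 0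
termination_by l => l.length
decreasing_by simp

theorem strip_cons [DecidableEq X] (a b x : X) (r : List X) : strip P a b (x :: r) =
    if x = a ∧ r.getLast? = some a then strip P a b r.dropLast
    else if x = b ∧ r.getLast? = some b then single (FreeMonoid.ofList r.dropLast) 1 else 0 := by
  rw [strip]

theorem exists_pi {a b : X} (hab : a ≠ b) : ∃ π : UA P X →ₗ[P] UA P X,
    (∀ f, π (ug P a * f * ug P a) = π f) ∧ (∀ f, π (ug P b * f * ug P b) = f) ∧
    (∀ f, π (ug P a * f * ug P b) = 0) ∧ (∀ f, π (ug P b * f * ug P a) = 0) := by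
  classical
  let r : FreeMonoid X → UA P X := fun w => strip P a b w.toList
  have key : ∀ (x y : X) (w : FreeMonoid X) (c : P), lin r (ug P x * single w c * ug P y) =
      c • strip P a b (x :: (w.toList ++ [y])) := by
    intro x y w c
    rw [ug, ug, single_mul_single, single_mul_single, lin_single, one_mul, mul_one]
    rfl
  refine ⟨lin r, fun f => ?_, fun f => ?_, fun f => ?_, fun f => ?_⟩ <;>
    induction f using MonoidAlgebra.induction_linear with
    | zero => simp
    | add f g hf hg => simp only [mul_add, add_mul, map_add, hf, hg, add_zero]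
    | single w c =>
      rw [key, strip_cons]
      simp [lin_single, r, hab, hab.symm]

theorem pi_term {a b : X} {π : UA P X →ₗ[P] UA P X}
    (h1 : ∀ f, π (ug P a * f * ug P a) = π f) (h2 : ∀ f, π (ug P b * f * ug P b) = f)
    (h3 : ∀ f, π (ug P a * f * ug P b) = 0) (h4 : ∀ f, π (ug P b * f * ug P a) = 0)
    (z : UA P X) (j i : ℕ) :
    π (ug P a ^ j * (ug P b * z * ug P b) * ug P a ^ i) = if i = j then z else 0 := by
  induction j generalizing i with
  | zero =>
    cases i with
    | zero => simp [h2]
    | succ i =>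
      have := h4 (z * ug P b * ug P a ^ i)
      rw [if_neg (Nat.succ_ne_zero i), ← this, pow_succ]
      congr 1
      noncomm_ring
  | succ j ih =>
    cases i with
    | zero =>
      have := h3 (ug P a ^ j * ug P b * z)
      rw [if_neg (Nat.succ_ne_zero j).symm, ← this, pow_succ']
      congr 1
      noncomm_ring
    | succ i =>
      have := h1 (ug P a ^ j * (ug P b * z * ug P b) * ug P a ^ i)
      rw [ih i] at this
      simp only [Nat.succ_inj]
      rw [← this, pow_succ', pow_succ]
      congr 1
      noncomm_ring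

/-- The code of a finite sequence. -/
noncomputable def code (a b : FreeAss P X) : List (FreeAss P X) → FreeAss P X
  | [] => 0
  | h :: L => pw a L.length * (b * h * b) + code a b L

/-- The entries of a finite sequence, counted from the end of the list. -/
noncomputable def entry : List (FreeAss P X) → ℕ → FreeAss P X
  | [], _ => 0
  | h :: L, i => (if i = L.length then h else 0) + entry L i

theorem entry_eq_zero (L : List (FreeAss P X)) {i : ℕ} (hi : L.length ≤ i) : entry L i = 0 := by
  induction L with
  | nil => rfl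
  | cons h L ih =>
    rw [List.length_cons] at hi
    rw [entry, if_neg (by omega), ih (by omega), add_zero]

theorem entry_cons_of_lt (h : FreeAss P X) (L : List (FreeAss P X)) {i : ℕ} (hi : i < L.length) :
    entry (h :: L) i = entry L i := by
  rw [entry, if_neg hi.ne, zero_add]

theorem entry_cons_length (h : FreeAss P X) (L : List (FreeAss P X)) :
    entry (h :: L) L.length = h := by
  rw [entry, if_pos rfl, entry_eq_zero L le_rfl, add_zero]

theorem exists_entry_of_mem {L : List (FreeAss P X)} {t : FreeAss P X} (ht : t ∈ L) :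
    ∃ j < L.length, entry L j = t := by
  induction L with
  | nil => simp at ht
  | cons h L ih =>
    rcases List.mem_cons.1 ht with rfl | ht
    · exact ⟨L.length, by simp, entry_cons_length _ _⟩
    · obtain ⟨j, hj, e⟩ := ih ht
      exact ⟨j, by simp; omega, by rw [entry_cons_of_lt _ _ hj, e]⟩

theorem coef_unique {a b : X} (hab : a ≠ b) (L : List (FreeAss P X)) (c : P) (i : ℕ)
    {t : FreeAss P X}
    (h : Coef (gen P a) (gen P b) (code (gen P a) (gen P b) L) (c • pw (gen P a) i) t) :
    t = c • entry L i := by
  obtain ⟨π, h1, h2, h3, h4⟩ := exists_pi (P := P) hab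
  have key : π (emb P (code (gen P a) (gen P b) L) * ug P a ^ (i + 1)) = emb P (entry L i) := by
    clear h
    induction L with
    | nil => simp [code, entry]
    | cons h L ih =>
      rw [code, entry, map_add, add_mul, map_add, ih, map_add]
      congr 1
      simp only [map_mul, emb_pw, emb_gen]
      rw [pi_term h1 h2 h3 h4]
      by_cases hi : i = L.length <;> simp [hi]
  obtain ⟨p, q, u, e⟩ := h
  have := congrArg (fun f => π (emb P f)) e
  simp only [map_add, map_mul, map_smul, emb_gen, emb_pw, mul_smul_comm, h1, h2, h3, h4,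
    key, zero_add, add_zero, add_left_inj] at this
  exact emb_injective (by rw [map_smul, this])

theorem coef_term (a b h : FreeAss P X) (j i : ℕ) :
    Coef a b (pw a j * (b * h * b)) (pw a i) (if i = j then h else 0) := by
  rcases lt_trichotomy i j with hij | rfl | hij
  · obtain ⟨d, rfl⟩ := Nat.exists_eq_add_of_lt hij
    obtain ⟨u, hu⟩ := exists_conj a (pw a d * (b * h * b)) (i + 1)
    obtain ⟨p, hp⟩ : ∃ p, pw a d * (b * h) = a * p := by
      cases d with
      | zero => exact ⟨b * h, rfl⟩
      | succ d => exact ⟨pw a d * (b * h), by rw [pw, mul_assoc]⟩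
    refine ⟨p, 0, u, ?_⟩
    have e : pw a (i + d + 1) * (b * h * b) * pw a i = conj a (i + 1) (pw a d * (b * h * b)) := by
      apply emb_injective
      simp only [map_mul, emb_pw, emb_conj]
      rw [show i + d + 1 + 1 = (i + 1) + (d + 1) by omega, pow_add]
      noncomm_ring
    rw [e, hu, if_neg (by omega), ← hp]
    noncomm_ring
  · obtain ⟨u, hu⟩ := exists_conj a (b * h * b) (i + 1)
    refine ⟨0, 0, u, ?_⟩
    have e : pw a i * (b * h * b) * pw a i = conj a (i + 1) (b * h * b) := by
      apply emb_injective
      simp only [map_mul, emb_pw, emb_conj]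
    rw [e, hu, if_pos rfl]
    noncomm_ring
  · obtain ⟨d, rfl⟩ := Nat.exists_eq_add_of_lt hij
    obtain ⟨u, hu⟩ := exists_conj a (b * h * b * pw a d) (j + 1)
    obtain ⟨q, hq⟩ : ∃ q, h * b * pw a d = q * a := by
      cases d with
      | zero => exact ⟨h * b, rfl⟩
      | succ d =>
        refine ⟨h * b * pw a d, emb_injective ?_⟩
        simp only [map_mul, emb_pw]
        rw [pow_succ _ (d + 1)]
        noncomm_ring
    refine ⟨0, q, u, ?_⟩
    have e : pw a j * (b * h * b) * pw a (j + d + 1) = conj a (j + 1) (b * h * b * pw a d) := by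
      apply emb_injective
      simp only [map_mul, emb_pw, emb_conj]
      rw [show j + d + 1 + 1 = (d + 1) + (j + 1) by omega, pow_add _ (d + 1)]
      simp only [mul_assoc]
    rw [e, hu, if_neg (by omega), mul_assoc b q a, ← hq]
    noncomm_ring

theorem coef_code (a b : FreeAss P X) (L : List (FreeAss P X)) (c : P) (i : ℕ) :
    Coef a b (code a b L) (c • pw a i) (c • entry L i) := by
  have : Coef a b (code a b L) (pw a i) (entry L i) := by
    induction L with
    | nil => exact ⟨0, 0, 0, by simp [code, entry]⟩
    | cons h L ih => exact (coef_term a b h _ i).add ih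
  obtain ⟨p, q, u, e⟩ := this
  refine ⟨c • p, c • q, c • u, ?_⟩
  simp only [mul_smul_comm, smul_mul_assoc, ← smul_add, e]

section Derivations

variable [Fintype X]

/-- One step of a derivation. -/
noncomputable def step (T : X → FreeAss P X) (c : X → P) : FreeAss P X :=
  ∑ k, (gen P k * T k + c k • gen P k)

/-- Derivable elements. -/
inductive Der : FreeAss P X → Prop
  | zero : Der 0
  | step (T : X → FreeAss P X) (c : X → P) : (∀ k, Der (T k)) → Der (step T c)

theorem Der.add {f g : FreeAss P X} (hf : Der f) (hg : Der g) : Der (f + g) := by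
  induction hf generalizing g with
  | zero => simpa using hg
  | step T c hT ih =>
    cases hg with
    | zero => simpa using Der.step T c hT
    | step T' c' hT' =>
      have := Der.step (fun k => T k + T' k) (fun k => c k + c' k) fun k => ih k (hT' k)
      have e : Pool.Agent.Lib.MP_7ba13c_lc.step (fun k => T k + T' k) (fun k => c k + c' k) =
          Pool.Agent.Lib.MP_7ba13c_lc.step T c + Pool.Agent.Lib.MP_7ba13c_lc.step T' c' := by
        unfold Pool.Agent.Lib.MP_7ba13c_lc.step
        rw [← Finset.sum_add_distrib]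
        refine Finset.sum_congr rfl fun k _ => ?_
        rw [mul_add, add_smul]; abel
      rwa [e] at this

theorem smul_step (d : P) (T : X → FreeAss P X) (c : X → P) :
    d • step T c = step (fun k => d • T k) (fun k => d * c k) := by
  unfold step
  rw [Finset.smul_sum]
  refine Finset.sum_congr rfl fun k _ => ?_
  rw [smul_add, mul_smul_comm, smul_smul]

theorem Der.smul (d : P) {f : FreeAss P X} (hf : Der f) : Der (d • f) := by
  induction hf with
  | zero => simpa using Der.zero
  | step T c _ ih => rw [smul_step]; exact Der.step _ _ ih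

theorem der_all (f : FreeAss P X) : Der f := by
  classical
  induction f using free_induction with
  | zero => exact Der.zero
  | add f g hf hg => exact hf.add hg
  | smul c f hf => exact hf.smul c
  | hgen x =>
    have := Der.step (P := P) (X := X) (fun _ => 0) (Pi.single x 1) fun _ => Der.zero
    have e : step (P := P) (X := X) (fun _ => 0) (Pi.single x 1) = gen P x := by
      simp [step, Pi.single_apply]
    rwa [e] at this
  | hmul x f hf =>
    have := Der.step (P := P) (X := X) (Pi.single x f) (fun _ => 0) fun k => by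
      by_cases hk : k = x
      · subst hk; simpa using hf
      · simpa [hk] using Der.zero
    have e : step (P := P) (X := X) (Pi.single x f) (fun _ => 0) = gen P x * f := by
      simp [step, Pi.single_apply]
    rwa [e] at this

theorem exists_step (f : FreeAss P X) : ∃ T c, f = step T c := by
  cases der_all f with
  | zero => exact ⟨fun _ => 0, fun _ => 0, by simp [step]⟩
  | step T c _ => exact ⟨T, c, rfl⟩

/-- Derivations as lists. -/
inductive Good : List (FreeAss P X) → Prop
  | nil : Good []
  | cons (L : List (FreeAss P X)) (T : X → FreeAss P X) (c : X → P) :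
      Good L → (∀ k, T k = 0 ∨ T k ∈ L) → Good (step T c :: L)

theorem Good.append {L L' : List (FreeAss P X)} (h : Good L) (h' : Good L') : Good (L ++ L') := by
  induction h with
  | nil => exact h'
  | cons L T c _ hT ih =>
    exact Good.cons _ T c ih fun k => (hT k).imp id fun hk => List.mem_append_left _ hk

theorem exists_good (f : FreeAss P X) : ∃ L, Good L ∧ (f = 0 ∨ f ∈ L) := by
  classical
  induction der_all f with
  | zero => exact ⟨[], Good.nil, Or.inl rfl⟩
  | step T c _ ih =>
    have : ∀ s : Finset X, ∃ L, Good L ∧ ∀ k ∈ s, T k = 0 ∨ T k ∈ L := by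
      intro s
      induction s using Finset.induction_on with
      | empty => exact ⟨[], Good.nil, by simp⟩
      | insert x s _ ih' =>
        obtain ⟨L, hL, h⟩ := ih'
        obtain ⟨L', hL', h'⟩ := ih x
        refine ⟨L ++ L', hL.append hL', fun k hk => ?_⟩
        rcases Finset.mem_insert.1 hk with rfl | hk
        · exact h'.imp id fun hk => List.mem_append_right _ hk
        · exact (h k hk).imp id fun hk => List.mem_append_left _ hk
    obtain ⟨L, hL, h⟩ := this Finset.univ
    exact ⟨_, Good.cons L T c hL fun k => h k (Finset.mem_univ k), Or.inr (by simp)⟩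

theorem Good.entry_eq {L : List (FreeAss P X)} (h : Good L) (i : ℕ) :
    ∃ T c, entry L i = step T c ∧ ∀ k, T k = 0 ∨ ∃ j < i, entry L j = T k := by
  induction h with
  | nil => exact ⟨fun _ => 0, fun _ => 0, by simp [entry, step], fun _ => Or.inl rfl⟩
  | cons L T c _ hT ih =>
    rcases lt_trichotomy i L.length with hi | rfl | hi
    · obtain ⟨T', c', e, h'⟩ := ih
      refine ⟨T', c', by rw [entry_cons_of_lt _ _ hi, e], fun k => (h' k).imp id ?_⟩
      rintro ⟨j, hj, e'⟩
      exact ⟨j, hj, by rw [entry_cons_of_lt _ _ (hj.trans hi), e']⟩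
    · refine ⟨T, c, entry_cons_length _ _, fun k => (hT k).imp id fun hk => ?_⟩
      obtain ⟨j, hj, e'⟩ := exists_entry_of_mem hk
      exact ⟨j, hj, by rw [entry_cons_of_lt _ _ hj, e']⟩
    · exact ⟨fun _ => 0, fun _ => 0, by rw [entry_eq_zero _ (by simpa using hi)]; simp [step],
        fun _ => Or.inl rfl⟩

theorem phi_gen {a b : X} (hab : a ≠ b) : Phi a b (gen P : X → FreeAss P X) := by
  intro z
  obtain ⟨L, hL, hz⟩ := exists_good z
  obtain ⟨i₀, hi₀⟩ : ∃ i, entry L i = z := by
    rcases hz with rfl | hz
    · exact ⟨L.length, entry_eq_zero L le_rfl⟩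
    · obtain ⟨j, -, e⟩ := exists_entry_of_mem hz
      exact ⟨j, e⟩
  refine ⟨code (gen P a) (gen P b) L, (1 : P) • pw (gen P a) i₀,
    ⟨pow_smul_pw a one_ne_zero i₀, ?_⟩, ?_⟩
  · have := coef_code (gen P a) (gen P b) L 1 i₀
    rwa [hi₀, one_smul P z] at this
  · rintro m t ⟨hm, ht⟩
    obtain ⟨d, i, hd, rfl⟩ := hm.eq_smul_pw
    have ht' := coef_unique hab L d i ht
    obtain ⟨T, c, e, hT⟩ := hL.entry_eq i
    have hj : ∀ k, ∃ j, T k = 0 ∨ (j < i ∧ entry L j = T k) := by
      intro k
      rcases hT k with h | ⟨j, h⟩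
      · exact ⟨0, Or.inl h⟩
      · exact ⟨j, Or.inr h⟩
    choose j hj using hj
    refine ⟨fun k => d • T k, fun k => (d * c k) • gen P k, fun k => d • pw (gen P a) (j k),
      by rw [ht', e, smul_step]; rfl, fun k => ⟨?_, ?_⟩⟩
    · by_cases h0 : d * c k = 0
      · left; simp [h0]
      · right
        refine ⟨fun u => ⟨(d * c k) • u, by rw [smul_mul_assoc, mul_smul_comm]⟩, fun u => ⟨(d * c k)⁻¹ • u, ?_⟩⟩
        simp only [smul_mul_assoc, mul_smul_comm, smul_smul]
        rw [inv_mul_cancel₀ h0, one_smul]
    · rcases hj k with h | ⟨h1, h2⟩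
      · left; simp [h]
      · right
        refine ⟨⟨pow_smul_pw a hd _, ?_⟩, pw (gen P a) (i - j k - 1), emb_injective ?_⟩
        · have := coef_code (gen P a) (gen P b) L d (j k)
          rwa [h2] at this
        · simp only [map_mul, map_smul, emb_pw, smul_mul_assoc]
          rw [← pow_add]
          congr 2
          omega

end Derivations

end Pool.Agent.Lib.MP_7ba13c_lc
end

-- part Pool.Agent.Lib.MP_7ba13c_lc.Main
section

/-!
Free associative algebras of finite rank are logically homogeneous and logically separable.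
-/

set_option autoImplicit false

namespace Pool.Agent.Lib.MP_7ba13c_lc

open FirstOrder FirstOrder.Language

universe u v w w'

variable {P : Type u} [Field P]

section Definable

variable {H : Type w} [NonUnitalRing H] [Module P H] {α : Type w'}

theorem df_Sc0 : DF P (fun v : Fin 2 → H => Sc (v 0) (v 1)) := by
  unfold Sc
  refine DF.or (DF.eq (TF.var _) TF.zero) (DF.and ?_ ?_) <;>
    exact DF.all (DF.ex (DF.eq (TF.mul (TF.var _) (TF.var _)) (TF.mul (TF.var _) (TF.var _))))

theorem df_Sc {f g : (α → H) → H} (hf : TF P f) (hg : TF P g) : DF P (fun v => Sc (f v) (g v)) :=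
  DF.subst (p := fun v : Fin 2 → H => Sc (v 0) (v 1)) df_Sc0 (f := ![f, g]) (by
    intro b; fin_cases b <;> assumption)

theorem df_Rank0 : DF P (fun v : Fin 5 → H => Rank (v 0) (v 1) (v 2) (v 3) (v 4)) := by
  unfold Rank Pow Coef
  refine DF.and (DF.and ?_ (DF.and ?_ ?_)) ?_
  · exact DF.eq (TF.mul (TF.var _) (TF.var _)) (TF.mul (TF.var _) (TF.var _))
  · exact DF.ne (TF.var _) TF.zero
  · exact DF.all (DF.all (DF.imp (DF.eq (TF.var _) (TF.add (TF.var _)
      (TF.mul (TF.var _) (TF.var _)))) (DF.eq (TF.var _) TF.zero)))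
  · refine DF.ex (DF.ex (DF.ex (DF.eq (TF.add (TF.mul (TF.var _) (TF.var _)) (TF.var _))
      (TF.add (TF.add (TF.add ?_ ?_) ?_) ?_)))) <;>
    exact TF.mul (TF.mul (TF.var _) (TF.var _)) (TF.var _)

theorem df_Rank {f₀ f₁ f₂ f₃ f₄ : (α → H) → H} (h₀ : TF P f₀) (h₁ : TF P f₁) (h₂ : TF P f₂)
    (h₃ : TF P f₃) (h₄ : TF P f₄) : DF P (fun v => Rank (f₀ v) (f₁ v) (f₂ v) (f₃ v) (f₄ v)) :=
  DF.subst (p := fun v : Fin 5 → H => Rank (v 0) (v 1) (v 2) (v 3) (v 4)) df_Rank0
    (f := ![f₀, f₁, f₂, f₃, f₄]) (by intro b; fin_cases b <;> assumption)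

theorem df_Phi {X : Type v} [Fintype X] (a b : X) : DF P (fun y : X → H => Phi a b y) := by
  unfold Phi
  refine DF.all (DF.ex (DF.ex (DF.and
    (df_Rank (TF.var _) (TF.var _) (TF.var _) (TF.var _) (TF.var _))
    (DF.all (DF.all (DF.imp (df_Rank (TF.var _) (TF.var _) (TF.var _) (TF.var _) (TF.var _))
      (DF.exs (DF.exs (DF.exs (DF.and ?_ ?_))))))))))
  · exact DF.eq (TF.var _) (TF.sum _ fun k => TF.add (TF.mul (TF.var _) (TF.var _)) (TF.var _))
  · exact DF.iAll fun k => DF.and (df_Sc (TF.var _) (TF.var _)) (DF.or (DF.eq (TF.var _) TF.zero)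
      (DF.and (df_Rank (TF.var _) (TF.var _) (TF.var _) (TF.var _) (TF.var _))
        (DF.ex (DF.eq (TF.var _) (TF.mul (TF.var _) (TF.var _))))))

end Definable

variable {X : Type v}

/-- A definable set of tuples that contains the free generators and consists of generating
tuples. -/
theorem exists_definable_bases [Finite X] : ∃ p : (X → FreeAss P X) → Prop,
    DF P p ∧ p (gen P) ∧ ∀ y, p y → Function.Surjective (liftW P y) := by
  classical
  have := Fintype.ofFinite X
  rcases subsingleton_or_nontrivial X with hX | hX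
  · refine ⟨fun y => ∀ k, ∀ u v, ∃ w, u * v = y k * w, ?_, ?_, ?_⟩
    · exact DF.iAll fun k => DF.all (DF.all (DF.ex
        (DF.eq (TF.mul (TF.var _) (TF.var _)) (TF.mul (TF.var _) (TF.var _)))))
    · intro k u v
      obtain ⟨T, c, rfl⟩ := exists_step u
      refine ⟨T k * v + c k • v, ?_⟩
      rw [step, Fintype.sum_subsingleton _ k, add_mul, mul_add, mul_assoc, smul_mul_assoc,
        mul_smul_comm]
    · intro y hy
      have hg : ∀ k, ∃ f, liftW P y f = gen P k := by
        intro k
        obtain ⟨w, hw⟩ := hy k (gen P k) (gen P k)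
        have e : emb P (y k) * emb P w =
            MonoidAlgebra.single (FreeMonoid.of k * FreeMonoid.of k) 1 := by
          rw [← map_mul, ← hw, map_mul, emb_gen, ug, MonoidAlgebra.single_mul_single, one_mul]
        obtain ⟨w₁, w₂, c₁, c₂, f1, f2, hw', hc₁, hc₂⟩ := eq_single_of_mul_eq_single one_ne_zero e
        have n1 : w₁ ≠ 1 := by
          rintro rfl
          have := coeff_emb_one (y k)
          rw [f1] at this
          exact hc₁ (by simpa using this)
        have n2 : w₂ ≠ 1 := by
          rintro rfl
          have := coeff_emb_one w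
          rw [f2] at this
          exact hc₂ (by simpa using this)
        have l := congrArg FreeMonoid.length hw'
        simp only [FreeMonoid.length_mul, FreeMonoid.length_of] at l
        have l1 := FreeMonoid.length_eq_zero.not.2 n1
        have l2 := FreeMonoid.length_eq_zero.not.2 n2
        obtain ⟨x, rfl⟩ := FreeMonoid.length_eq_one.1 (show w₁.length = 1 by omega)
        rw [Subsingleton.elim x k] at f1
        refine ⟨c₁⁻¹ • gen P k, emb_injective ?_⟩
        rw [map_smul, liftW_gen, map_smul, f1, emb_gen, ug, MonoidAlgebra.smul_single,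
          smul_eq_mul, inv_mul_cancel₀ hc₁]
      intro f
      induction f using free_induction with
      | zero => exact ⟨0, map_zero _⟩
      | add f g hf hg =>
        obtain ⟨f', rfl⟩ := hf
        obtain ⟨g', rfl⟩ := hg
        exact ⟨f' + g', map_add _ _ _⟩
      | smul c f hf =>
        obtain ⟨f', rfl⟩ := hf
        exact ⟨c • f', map_smul _ _ _⟩
      | hgen x => exact hg x
      | hmul x f hf =>
        obtain ⟨f', rfl⟩ := hf
        obtain ⟨g', e⟩ := hg x
        exact ⟨g' * f', by rw [map_mul, e]⟩
  · obtain ⟨a, b, hab⟩ := exists_pair_ne X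
    exact ⟨fun y => Phi a b y, df_Phi a b, phi_gen hab, fun y hy => phi_sound hy⟩

/-- Every element of the free algebra is given by a term, uniformly in two algebras. -/
theorem exists_term (H : Type w) [NonUnitalRing H] [Module P H] [IsScalarTower P H H]
    [SMulCommClass P H H] (f : FreeAss P X) : ∃ t : (algLang P).Term X,
    (∀ y : X → FreeAss P X, t.realize y = liftW P y f) ∧ ∀ y : X → H, t.realize y = liftW P y f := by
  induction f using free_induction with
  | zero => exact ⟨tZero P, by simp, by simp⟩
  | add f g hf hg =>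
    obtain ⟨s, h1, h2⟩ := hf
    obtain ⟨t, h3, h4⟩ := hg
    exact ⟨tAdd P s t, by simp [h1, h3], by simp [h2, h4]⟩
  | smul c f hf =>
    obtain ⟨s, h1, h2⟩ := hf
    exact ⟨tSmul P c s, by simp [h1], by simp [h2]⟩
  | hgen x => exact ⟨Term.var x, by simp, by simp⟩
  | hmul x f hf =>
    obtain ⟨s, h1, h2⟩ := hf
    exact ⟨tMul P (Term.var x) s, by simp [h1], by simp [h2]⟩

/-- A bijective homomorphism of algebras as an isomorphism of structures. -/
noncomputable def toEquiv {H₁ : Type w} [NonUnitalRing H₁] [Module P H₁] {H₂ : Type w'}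
    [NonUnitalRing H₂] [Module P H₂] (σ : H₁ →ₙₐ[P] H₂) (h : Function.Bijective σ) :
    Language.Equiv (algLang P) H₁ H₂ where
  toEquiv := _root_.Equiv.ofBijective σ h
  map_fun' := by
    intro n f x
    cases f with
    | zero => exact map_zero σ
    | neg => exact map_neg σ _
    | smul c => exact map_smul σ c _
    | add => exact map_add σ _ _
    | mul => exact map_mul σ _ _
  map_rel' := fun r => Empty.elim r

/-- If `a` and `b` satisfy the same formulas, an automorphism maps `a` to `b`. -/
theorem exists_aut [Finite X] {ι : Type w} [Finite ι] (a b : ι → FreeAss P X)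
    (h : ∀ φ : (algLang P).Formula ι, φ.Realize a → φ.Realize b) :
    ∃ σ : FreeAss P X →ₙₐ[P] FreeAss P X, Function.Bijective σ ∧ ∀ i, b i = σ (a i) := by
  obtain ⟨p, hp, hgen, hsurj⟩ := exists_definable_bases (P := P) (X := X)
  choose t ht _ using fun i => exists_term (FreeAss P X) (a i)
  have hD : DF P (fun v : ι → FreeAss P X => ∃ y : X → FreeAss P X,
      p y ∧ ∀ i, v i = (t i).realize y) :=
    DF.exs (DF.and (DF.subst hp fun x => TF.var _)
      (DF.iAll fun i => DF.eq (TF.var _) (TF.subst (t i) fun x => TF.var _)))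
  obtain ⟨φ, hφ⟩ := hD
  obtain ⟨y, hy, hb⟩ := (hφ b).2 (h φ ((hφ a).1 ⟨gen P, hgen, fun i => by
    rw [ht, liftW_gen_self]⟩))
  exact ⟨liftW P y, ⟨injective_of_surjective _ (hsurj y hy), hsurj y hy⟩, fun i => by
    rw [hb, ht]⟩

theorem homogeneous [Finite X] : LogicallyHomogeneous P (FreeAss P X) := by
  intro n a b
  constructor
  · intro h
    obtain ⟨σ, hσ, e⟩ := exists_aut a b fun φ hφ => by
      have : φ ∈ tp P a := hφ
      rw [h] at this
      exact this
    exact ⟨toEquiv σ hσ, e⟩
  · rintro ⟨σ, e⟩
    ext φ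
    have : b = σ ∘ a := funext e
    show φ.Realize a ↔ φ.Realize b
    rw [this, StrongHomClass.realize_formula]

theorem transfer {H₁ : Type w} [NonUnitalRing H₁] [Module P H₁] {H₂ : Type w'}
    [NonUnitalRing H₂] [Module P H₂]
    (h : ∀ n : ℕ, 1 ≤ n → Set.range (fun a : Fin n → H₁ => tp P a) ⊆
      Set.range (fun a : Fin n → H₂ => tp P a))
    {ι : Type v} [Finite ι] (a : ι → H₁) :
    ∃ b : ι → H₂, ∀ φ : (algLang P).Formula ι, φ.Realize a ↔ φ.Realize b := by
  obtain ⟨n, ⟨e⟩⟩ := Finite.exists_equiv_fin ι
  obtain ⟨b, hb⟩ := h (n + 1) (by omega) ⟨Fin.cons 0 (a ∘ e.symm), rfl⟩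
  refine ⟨fun i => b (e i).succ, fun φ => ?_⟩
  have h1 : φ.relabel (fun i => (e i).succ) ∈ tp P b ↔
      φ.relabel (fun i => (e i).succ) ∈ tp P (Fin.cons 0 (a ∘ e.symm) : Fin (n + 1) → H₁) := by
    simp only at hb
    rw [hb]
  simp only [tp, Set.mem_ofPred_eq, Formula.realize_relabel] at h1
  have e1 : (Fin.cons 0 (a ∘ e.symm) : Fin (n + 1) → H₁) ∘ (fun i => (e i).succ) = a := by
    funext i; simp
  rw [e1] at h1
  exact h1.symm

theorem separable [Finite X] (H : Type w) [NonUnitalRing H] [Module P H] [IsScalarTower P H H]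
    [SMulCommClass P H H] (h : Isotypic P H (FreeAss P X)) :
    Nonempty (Language.Equiv (algLang P) H (FreeAss P X)) := by
  obtain ⟨y, hy⟩ := transfer (fun n hn => (h n hn).symm.subset) (gen P : X → FreeAss P X)
  refine ⟨(toEquiv (liftW P y) ⟨?_, ?_⟩).symm⟩
  · rw [injective_iff_map_eq_zero]
    intro f hf
    obtain ⟨t, h1, h2⟩ := exists_term H f
    have := hy (t.equal (tZero P))
    simp only [Formula.realize_equal, realize_tZero, h1, h2, liftW_gen_self] at this
    exact this.2 hf
  · intro g
    obtain ⟨z, hz⟩ := transfer (fun n hn => (h n hn).subset) (fun o : Option X => o.elim g y)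
    obtain ⟨σ, hσ, e⟩ := exists_aut (gen P) (fun x => z (some x)) fun φ hφ => by
      have h1 := hz (φ.relabel some)
      simp only [Formula.realize_relabel] at h1
      exact h1.1 ((hy φ).1 hφ)
    obtain ⟨f, hf⟩ := hσ.2 (z none)
    obtain ⟨t, h1, h2⟩ := exists_term H f
    have h3 : ∀ f', liftW P (fun x => z (some x)) f' = σ f' := by
      intro f'
      induction f' using free_induction with
      | zero => simp
      | add f g hf hg => rw [map_add, map_add, hf, hg]
      | smul c f hf => rw [map_smul, map_smul, hf]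
      | hgen x => rw [liftW_gen, e]
      | hmul x f hf => rw [map_mul, map_mul, hf, liftW_gen, e]
    have := hz ((t.relabel some).equal (Term.var none))
    simp only [Formula.realize_equal, Term.realize_relabel, Term.realize_var, h1, h2] at this
    exact ⟨f, this.2 ((h3 f).trans hf)⟩

end Pool.Agent.Lib.MP_7ba13c_lc
end
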